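import Pool.Agent.H937Z.RF.Check

set_option autoImplicit false

namespace Pool.Agent.H937Z.RootedForest

/-- the i-th point of the configuration -/
noncomputable def pt (i : ℕ) : EuclideanSpace ℝ (Fin 2) := !₂[(px i : ℝ), (py i : ℝ)]

lemma pt0 (i : ℕ) : pt i 0 = px i := by simp [pt]
lemma pt1 (i : ℕ) : pt i 1 = py i := by simp [pt]

lemma tab {r j b x : ℕ} (hr : r < 4) (hj : j < 17) (hb : b < 17) (hx : x < 17)
    (h : tb (mk r j) b x = true) : cr r j b x = true := by
  have H := chkTab_true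
  simp only [chkTab, List.all_eq_true, List.mem_range] at H
  have := H r hr j hj b hb x hx
  simpa [h] using this

lemma gp {a b c : ℕ} (ha : a < 17) (hb : b < 17) (hc : c < 17) (hab : a ≠ b) (hac : a ≠ c)
    (hbc : b ≠ c) : ori a b c ≠ 0 := by
  have H := chkGP_true
  simp only [chkGP, List.all_eq_true, List.mem_range] at H
  have := H a ha b hb c hc
  simpa [hab, hac, hbc] using this

lemma pt_inj {a b : ℕ} (ha : a < 17) (hb : b < 17) (h : pt a = pt b) : a = b := by
  by_contra hab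
  have hx : (px a : ℝ) = px b := by rw [← pt0, ← pt0, h]
  have hy : (py a : ℝ) = py b := by rw [← pt1, ← pt1, h]
  have hx' : px a = px b := by exact_mod_cast hx
  have hy' : py a = py b := by exact_mod_cast hy
  obtain ⟨c, hc, hac, hbc⟩ : ∃ c < 17, a ≠ c ∧ b ≠ c := by
    by_cases h0 : a ≠ 0 ∧ b ≠ 0
    · exact ⟨0, by norm_num, h0.1, h0.2⟩
    · by_cases h1 : a ≠ 1 ∧ b ≠ 1
      · exact ⟨1, by norm_num, h1.1, h1.2⟩
      · exact ⟨2, by norm_num, by omega, by omega⟩
  apply gp ha hb hc hab hac hbc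
  simp [ori, hx', hy']

lemma not_collinear {a b c : ℕ} (h : ori a b c ≠ 0) : ¬ Collinear ℝ {pt a, pt b, pt c} := by
  intro hc
  rw [collinear_iff_of_mem (p₀ := pt a) (by simp)] at hc
  obtain ⟨v, hv⟩ := hc
  obtain ⟨s, hs⟩ := hv (pt b) (by simp)
  obtain ⟨t, ht⟩ := hv (pt c) (by simp)
  have b0 : (px b : ℝ) = s * v 0 + px a := by rw [← pt0, hs]; simp [pt0]
  have b1 : (py b : ℝ) = s * v 1 + py a := by rw [← pt1, hs]; simp [pt1]
  have c0 : (px c : ℝ) = t * v 0 + px a := by rw [← pt0, ht]; simp [pt0]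
  have c1 : (py c : ℝ) = t * v 1 + py a := by rw [← pt1, ht]; simp [pt1]
  apply h
  have : ((ori a b c : ℤ) : ℝ) = 0 := by
    simp only [ori]; push_cast
    rw [b0, b1, c0, c1]; ring
  exact_mod_cast this

lemma frac_mem {u w : ℝ} (h : u * w < 0) : 0 ≤ u / (u - w) ∧ u / (u - w) ≤ 1 ∧ u - w ≠ 0 := by
  rcases lt_trichotomy u 0 with hu | hu | hu
  · have hw : 0 < w := by nlinarith
    have hd : u - w < 0 := by linarith
    refine ⟨div_nonneg_of_nonpos hu.le hd.le, ?_, hd.ne⟩
    rw [div_le_one_of_neg hd]; linarith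
  · rw [hu] at h; simp at h
  · have hw : w < 0 := by nlinarith
    have hd : 0 < u - w := by linarith
    refine ⟨div_nonneg hu.le hd.le, ?_, hd.ne'⟩
    rw [div_le_one hd]; linarith

lemma cr_not_disjoint {a b c d : ℕ} (h : cr a b c d = true) :
    ¬ Disjoint (segment ℝ (pt a) (pt b)) (segment ℝ (pt c) (pt d)) := by
  simp only [cr, Bool.and_eq_true, decide_eq_true_eq] at h
  obtain ⟨h1, h2⟩ := h
  have h1' : ((ori a b c : ℤ) : ℝ) * ((ori a b d : ℤ) : ℝ) < 0 := by exact_mod_cast h1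
  have h2' : ((ori c d a : ℤ) : ℝ) * ((ori c d b : ℤ) : ℝ) < 0 := by exact_mod_cast h2
  obtain ⟨s0, s1, sd⟩ := frac_mem h1'
  obtain ⟨t0, t1, td⟩ := frac_mem h2'
  set s : ℝ := ((ori a b c : ℤ) : ℝ) / (((ori a b c : ℤ) : ℝ) - ((ori a b d : ℤ) : ℝ)) with hs
  set t : ℝ := ((ori c d a : ℤ) : ℝ) / (((ori c d a : ℤ) : ℝ) - ((ori c d b : ℤ) : ℝ)) with ht
  rw [Set.not_disjoint_iff]
  refine ⟨(1 - t) • pt a + t • pt b, ⟨1 - t, t, by linarith, t0, by ring, rfl⟩,
    ⟨1 - s, s, by linarith, s0, by ring, ?_⟩⟩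
  have key : ((ori c d a : ℤ) : ℝ) - ((ori c d b : ℤ) : ℝ) =
      -(((ori a b c : ℤ) : ℝ) - ((ori a b d : ℤ) : ℝ)) := by
    simp only [ori]; push_cast; ring
  have hs' : s * (((ori a b c : ℤ) : ℝ) - ((ori a b d : ℤ) : ℝ)) = (ori a b c : ℤ) := by
    rw [hs]; field_simp
  have ht' : t * (((ori a b c : ℤ) : ℝ) - ((ori a b d : ℤ) : ℝ)) = -((ori c d a : ℤ) : ℝ) := by
    have : t * (((ori c d a : ℤ) : ℝ) - ((ori c d b : ℤ) : ℝ)) = (ori c d a : ℤ) := by
      rw [ht]; field_simp
    rw [key] at this; linarith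
  ext i
  fin_cases i
  · simp only [Fin.zero_eta, PiLp.add_apply, PiLp.smul_apply, smul_eq_mul, pt0]
    apply mul_right_cancel₀ sd
    have e1 : (px c : ℝ) * (((ori a b c : ℤ) : ℝ) - ((ori a b d : ℤ) : ℝ)) +
        (px d - px c) * (ori a b c : ℤ) =
        px a * (((ori a b c : ℤ) : ℝ) - ((ori a b d : ℤ) : ℝ)) - (px b - px a) * (ori c d a : ℤ) := by
      simp only [ori]; push_cast; ring
    linear_combination e1 + ((px d : ℝ) - px c) * hs' - ((px b : ℝ) - px a) * ht'
  · simp only [Fin.mk_one, PiLp.add_apply, PiLp.smul_apply, smul_eq_mul, pt1]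
    apply mul_right_cancel₀ sd
    have e1 : (py c : ℝ) * (((ori a b c : ℤ) : ℝ) - ((ori a b d : ℤ) : ℝ)) +
        (py d - py c) * (ori a b c : ℤ) =
        py a * (((ori a b c : ℤ) : ℝ) - ((ori a b d : ℤ) : ℝ)) - (py b - py a) * (ori c d a : ℤ) := by
      simp only [ori]; push_cast; ring
    linear_combination e1 + ((py d : ℝ) - py c) * hs' - ((py b : ℝ) - py a) * ht'

lemma cr_ne {a b c d : ℕ} (h : cr a b c d = true) : b ≠ d := by
  rintro rfl
  simp only [cr, Bool.and_eq_true, decide_eq_true_eq] at h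
  have : ori a b b = 0 := by simp only [ori]; ring
  rw [this] at h; simp at h

lemma memB {x : ℕ} (h4 : 4 ≤ x) (h : x < 17) : x ∈ Bs := by
  simp only [Bs, List.mem_cons, List.not_mem_nil]; omega

lemma ofB {x : ℕ} (h : x ∈ Bs) : 4 ≤ x ∧ x < 17 := by
  simp only [Bs, List.mem_cons, List.not_mem_nil, or_false] at h; omega

lemma comb {j1 j2 j3 a b : ℕ} (h1 : j1 ∈ Bs) (h2 : j2 ∈ Bs) (h3 : j3 ∈ Bs) (ha : a ∈ Bs)
    (hb : b ∈ Bs) (n21 : j2 ≠ j1) (n31 : j3 ≠ j1) (n32 : j3 ≠ j2) (na1 : a ≠ j1) (na2 : a ≠ j2)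
    (na3 : a ≠ j3) (nb1 : b ≠ j1) (nb2 : b ≠ j2) (nb3 : b ≠ j3) (nba : b ≠ a) :
    cr 0 j1 1 j2 = true ∨ cr 0 j1 2 j3 = true ∨ cr 1 j2 2 j3 = true ∨ cr 0 j1 3 a = true ∨
      cr 1 j2 3 a = true ∨ cr 2 j3 3 a = true ∨
      ∃ x ∈ Bs, x ≠ j1 ∧ x ≠ j2 ∧ x ≠ j3 ∧ x ≠ b ∧
        (cr 0 j1 b x = true ∨ cr 1 j2 b x = true ∨ cr 2 j3 b x = true ∨ cr 3 a b x = true) := by
  have H := chkMain_true
  simp only [chkMain, List.all_eq_true, Bool.or_eq_true, beq_iff_eq, List.any_eq_true,
    Bool.and_eq_true, bne_iff_ne] at H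
  obtain ⟨_, l1⟩ := ofB h1
  obtain ⟨_, l2⟩ := ofB h2
  obtain ⟨_, l3⟩ := ofB h3
  obtain ⟨_, la⟩ := ofB ha
  obtain ⟨_, lb⟩ := ofB hb
  rcases H j1 h1 j2 h2 with (e | e) | H
  · exact absurd e n21
  · exact Or.inl (tab (by norm_num) l1 (by norm_num) l2 e)
  rcases H j3 h3 with (((e | e) | e) | e) | H
  · exact absurd e n31
  · exact absurd e n32
  · exact Or.inr (Or.inl (tab (by norm_num) l1 (by norm_num) l3 e))
  · exact Or.inr (Or.inr (Or.inl (tab (by norm_num) l2 (by norm_num) l3 e)))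
  rcases H a ha with (((((e | e) | e) | e) | e) | e) | H
  · exact absurd e na1
  · exact absurd e na2
  · exact absurd e na3
  · exact Or.inr (Or.inr (Or.inr (Or.inl (tab (by norm_num) l1 (by norm_num) la e))))
  · exact Or.inr (Or.inr (Or.inr (Or.inr (Or.inl (tab (by norm_num) l2 (by norm_num) la e)))))
  · exact Or.inr (Or.inr (Or.inr (Or.inr (Or.inr (Or.inl
      (tab (by norm_num) l3 (by norm_num) la e))))))
  rcases H b hb with (((e | e) | e) | e) | H
  · exact absurd e nb1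
  · exact absurd e nb2
  · exact absurd e nb3
  · exact absurd e nba
  obtain ⟨x, hx, ⟨⟨⟨x1, x2⟩, x3⟩, xb⟩, ht⟩ := H
  obtain ⟨_, lx⟩ := ofB hx
  refine Or.inr (Or.inr (Or.inr (Or.inr (Or.inr (Or.inr ⟨x, hx, x1, x2, x3, xb, ?_⟩)))))
  simp only [tb, Nat.testBit_or, Bool.or_eq_true] at ht
  rcases ht with ((e | e) | e) | e
  · exact Or.inl (tab (by norm_num) l1 lb lx e)
  · exact Or.inr (Or.inl (tab (by norm_num) l2 lb lx e))
  · exact Or.inr (Or.inr (Or.inl (tab (by norm_num) l3 lb lx e)))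
  · exact Or.inr (Or.inr (Or.inr (tab (by norm_num) la lb lx e)))

/-- parent of a non-root vertex: 4,5,6,7 hang below the roots 0,1,2,3; 8 below 7; 9..16 below 8 -/
def par (v : Fin 17) : Fin 17 :=
  if v.val = 4 then 0 else if v.val = 5 then 1 else if v.val = 6 then 2 else if v.val = 7 then 3
  else if v.val = 8 then 7 else 8

def adjB (u v : Fin 17) : Bool := (decide (4 ≤ u.val) && par u == v) || (decide (4 ≤ v.val) && par v == u)

/-- three rooted edges and a broom with a handle of length two and eight bristles -/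
def G : SimpleGraph (Fin 17) where
  Adj u v := adjB u v = true
  symm := ⟨by intro u v; revert u v; decide⟩
  loopless := ⟨by decide⟩

instance : DecidableRel G.Adj := fun u v => inferInstanceAs (Decidable (adjB u v = true))

def rt (i : Fin 4) : Fin 17 := ⟨i.val, by omega⟩

def comp (v : Fin 17) : ℕ := if v.val < 4 then v.val else if v.val < 7 then v.val - 4 else 3

lemma comp_adj : ∀ u v : Fin 17, G.Adj u v → comp u = comp v := by decide

lemma comp_reach {u v : Fin 17} (h : G.Reachable u v) : comp u = comp v := by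
  obtain ⟨w⟩ := h
  induction w with
  | nil => rfl
  | cons h _ ih => exact (comp_adj _ _ h).trans ih

lemma comp_rt : ∀ i j : Fin 4, comp (rt i) = comp (rt j) → i = j := by decide

def desc (c v : Fin 17) : Bool :=
  c == v || (c.val == 7 && decide (8 ≤ v.val)) || (c.val == 8 && decide (9 ≤ v.val))

lemma desc_adj : ∀ c u w : Fin 17, 4 ≤ c.val → G.Adj u w → ¬ (u = c ∧ w = par c) →
    ¬ (u = par c ∧ w = c) → desc c u = desc c w := by decide +kernel

lemma desc_self : ∀ c : Fin 17, 4 ≤ c.val → desc c c ≠ desc c (par c) := by decide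

lemma bridge (c : Fin 17) (hc : 4 ≤ c.val) : G.IsBridge s(c, par c) := by
  rw [SimpleGraph.isBridge_iff]
  rintro ⟨w⟩
  apply desc_self c hc
  suffices h : ∀ u v : Fin 17, (G.deleteEdges {s(c, par c)}).Walk u v → desc c u = desc c v from
    h _ _ w
  intro u v w
  induction w with
  | nil => rfl
  | cons h _ ih =>
    rw [SimpleGraph.deleteEdges_adj] at h
    refine (desc_adj c _ _ hc h.1 ?_ ?_).trans ih
    · rintro ⟨rfl, rfl⟩; exact h.2 (by simp)
    · rintro ⟨rfl, rfl⟩; exact h.2 (by simp [Sym2.eq_swap])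

lemma acyclic : G.IsAcyclic := by
  rw [SimpleGraph.isAcyclic_iff_forall_adj_isBridge]
  intro u v h
  have h' : adjB u v = true := h
  simp only [adjB, Bool.or_eq_true, Bool.and_eq_true, decide_eq_true_eq, beq_iff_eq] at h'
  rcases h' with ⟨h4, rfl⟩ | ⟨h4, rfl⟩
  · exact bridge u h4
  · rw [Sym2.eq_swap]; exact bridge v h4

lemma reach (v : Fin 17) : ∃ i : Fin 4, G.Reachable (rt i) v := by
  have a37 : G.Adj (rt 3) 7 := by decide
  have a78 : G.Adj 7 8 := by decide
  have h : ∀ v : Fin 17, (∃ i : Fin 4, rt i = v) ∨ (∃ i : Fin 4, G.Adj (rt i) v) ∨ G.Adj 7 v ∨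
      G.Adj 8 v := by decide
  rcases h v with ⟨i, rfl⟩ | ⟨i, h⟩ | h | h
  · exact ⟨i, SimpleGraph.Reachable.refl _⟩
  · exact ⟨i, h.reachable⟩
  · exact ⟨3, a37.reachable.trans h.reachable⟩
  · exact ⟨3, (a37.reachable.trans a78.reachable).trans h.reachable⟩

theorem main :
    ¬ (∀ (k : ℕ) (V : Type) [Fintype V] (G : SimpleGraph V) (r : Fin k → V),
      G.IsAcyclic →
      (∀ v : V, ∃ i : Fin k, G.Reachable (r i) v) →
      (∀ i j : Fin k, G.Reachable (r i) (r j) → i = j) →
      ∀ (P : Finset (EuclideanSpace ℝ (Fin 2))) (p : Fin k → EuclideanSpace ℝ (Fin 2)),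
        P.card = Fintype.card V →
        (∀ a ∈ P, ∀ b ∈ P, ∀ c ∈ P, a ≠ b → a ≠ c → b ≠ c → ¬ Collinear ℝ {a, b, c}) →
        Function.Injective p →
        (∀ i, p i ∈ P) →
        ∃ f : V → EuclideanSpace ℝ (Fin 2),
          Function.Injective f ∧ (∀ v, f v ∈ P) ∧ (∀ i, f (r i) = p i) ∧
          ∀ u v x y : V, G.Adj u v → G.Adj x y → u ≠ x → u ≠ y → v ≠ x → v ≠ y →
            Disjoint (segment ℝ (f u) (f v)) (segment ℝ (f x) (f y))) := by
  classical
  intro H
  have inj : Function.Injective (fun i : Fin 17 => pt i.val) := fun a b h =>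
    Fin.ext (pt_inj a.2 b.2 h)
  obtain ⟨f, finj, fmem, froot, fdis⟩ := H 4 (Fin 17) G rt acyclic reach
    (by
      intro i j h
      exact comp_rt i j (comp_reach h))
    (Finset.univ.image (fun i : Fin 17 => pt i.val)) (fun i => pt i.val)
    (by rw [Finset.card_image_of_injective _ inj]; simp)
    (by
      intro a ha b hb c hc hab hac hbc
      simp only [Finset.mem_image, Finset.mem_univ, true_and] at ha hb hc
      obtain ⟨a, rfl⟩ := ha
      obtain ⟨b, rfl⟩ := hb
      obtain ⟨c, rfl⟩ := hc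
      refine not_collinear (gp a.2 b.2 c.2 ?_ ?_ ?_)
      · intro h; exact hab (by rw [h])
      · intro h; exact hac (by rw [h])
      · intro h; exact hbc (by rw [h]))
    (fun a b h => Fin.ext (pt_inj (by omega) (by omega) h))
    (fun i => Finset.mem_image.2 ⟨rt i, Finset.mem_univ _, rfl⟩)
  have hσ : ∀ v, ∃ i : Fin 17, pt i.val = f v := by
    intro v
    simpa using fmem v
  choose σ hσ using hσ
  have σinj : Function.Injective σ := fun a b h => finj (by rw [← hσ, ← hσ, h])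
  have σsurj : Function.Surjective σ := Finite.surjective_of_injective σinj
  have σroot : ∀ i : Fin 4, σ (rt i) = rt i := fun i => inj (by
    show pt _ = pt _
    rw [hσ, froot]; rfl)
  have σ0 : σ 0 = 0 := σroot 0
  have σ1 : σ 1 = 1 := σroot 1
  have σ2 : σ 2 = 2 := σroot 2
  have σ3 : σ 3 = 3 := σroot 3
  have hB : ∀ v : Fin 17, 4 ≤ v.val → (σ v).val ∈ Bs := by
    intro v hv
    refine memB ?_ (σ v).2
    by_contra hlt
    have h : σ (rt ⟨(σ v).val, by omega⟩) = σ v := by rw [σroot]; rfl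
    have := congrArg Fin.val (σinj h)
    simp only [rt] at this
    omega
  have hne : ∀ u v : Fin 17, u ≠ v → (σ u).val ≠ (σ v).val := fun u v h e =>
    h (σinj (Fin.ext e))
  have hcr : ∀ u v x y : Fin 17, G.Adj u v → G.Adj x y → u ≠ x → u ≠ y → v ≠ x → v ≠ y →
      ¬ cr (σ u).val (σ v).val (σ x).val (σ y).val = true := by
    intro u v x y h1 h2 n1 n2 n3 n4 h
    apply cr_not_disjoint h
    rw [hσ, hσ, hσ, hσ]
    exact fdis u v x y h1 h2 n1 n2 n3 n4
  rcases comb (hB 4 (by decide)) (hB 5 (by decide)) (hB 6 (by decide)) (hB 7 (by decide))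
    (hB 8 (by decide)) (hne _ _ (by decide)) (hne _ _ (by decide)) (hne _ _ (by decide))
    (hne _ _ (by decide)) (hne _ _ (by decide)) (hne _ _ (by decide)) (hne _ _ (by decide))
    (hne _ _ (by decide)) (hne _ _ (by decide)) (hne _ _ (by decide)) with
    h | h | h | h | h | h | ⟨x, hx, x1, x2, x3, xb, h⟩
  · exact hcr 0 4 1 5 (by decide) (by decide) (by decide) (by decide) (by decide) (by decide)
      (by rw [σ0, σ1]; exact h)
  · exact hcr 0 4 2 6 (by decide) (by decide) (by decide) (by decide) (by decide) (by decide)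
      (by rw [σ0, σ2]; exact h)
  · exact hcr 1 5 2 6 (by decide) (by decide) (by decide) (by decide) (by decide) (by decide)
      (by rw [σ1, σ2]; exact h)
  · exact hcr 0 4 3 7 (by decide) (by decide) (by decide) (by decide) (by decide) (by decide)
      (by rw [σ0, σ3]; exact h)
  · exact hcr 1 5 3 7 (by decide) (by decide) (by decide) (by decide) (by decide) (by decide)
      (by rw [σ1, σ3]; exact h)
  · exact hcr 2 6 3 7 (by decide) (by decide) (by decide) (by decide) (by decide) (by decide)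
      (by rw [σ2, σ3]; exact h)
  · obtain ⟨x4, x17⟩ := ofB hx
    obtain ⟨v, hv⟩ := σsurj ⟨x, x17⟩
    have hxv : (σ v).val = x := by rw [hv]
    subst hxv
    have v4 : 4 ≤ v.val := by
      by_contra hlt
      have h : σ (rt ⟨v.val, by omega⟩) = σ v := rfl
      rw [σroot] at h
      have := congrArg Fin.val h
      simp only [rt] at this
      omega
    have v1 : v ≠ 4 := fun e => x1 (by rw [e])
    have v2 : v ≠ 5 := fun e => x2 (by rw [e])
    have v3 : v ≠ 6 := fun e => x3 (by rw [e])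
    have v8 : v ≠ 8 := fun e => xb (by rw [e])
    have hadj : G.Adj 8 v := by
      clear * - v4 v1 v2 v3 v8
      revert v; decide
    have r0 : (0 : Fin 17) ≠ v := by rintro rfl; simp at v4
    have r1 : (1 : Fin 17) ≠ v := by rintro rfl; simp at v4
    have r2 : (2 : Fin 17) ≠ v := by rintro rfl; revert v4; decide
    have r3 : (3 : Fin 17) ≠ v := by rintro rfl; revert v4; decide
    rcases h with h | h | h | h
    · exact hcr 0 4 8 v (by decide) hadj (by decide) r0 (by decide) v1.symm (by rw [σ0]; exact h)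
    · exact hcr 1 5 8 v (by decide) hadj (by decide) r1 (by decide) v2.symm (by rw [σ1]; exact h)
    · exact hcr 2 6 8 v (by decide) hadj (by decide) r2 (by decide) v3.symm (by rw [σ2]; exact h)
    · exact hcr 3 7 8 v (by decide) hadj (by decide) r3 (by decide)
        (fun e => cr_ne h (by rw [e])) (by rw [σ3]; exact h)

end Pool.Agent.H937Z.RootedForest
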